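import Mathlib
import Pool.Agent.TH373.RateLimits

set_option autoImplicit false

/-!
# MP_ff81d5_co, Q1: the asymptotic transversal ratios tend to one

The definitions of `tauP`, `tauS` and of all notions they use are in `Pool.Agent.H523R3.TransDefs`;
`maxRatioP`, `maxRatioS` are defined in `Pool.Agent.TH373.RateLimits`.
-/

namespace Pool.Agent.Results.MP_ff81d5_co.LimitOne

open Filter Topology Pool.Agent.H523R3.Trans Pool.Agent.TH373.Rate

/-- `lim τ^P_d = lim τ^S_d = 1` as `d → ∞`; indeed for each fixed `d ≥ 4` the largest transversal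
ratios among simplicial `d`-polytopes (simplicial `(d-1)`-spheres) with `n` vertices converge to
`1` as `n → ∞` through all integers. -/
theorem result : Tendsto tauP atTop (𝓝 1) ∧ Tendsto tauS atTop (𝓝 1) ∧
    ∀ d : ℕ, 4 ≤ d → Tendsto (maxRatioP d) atTop (𝓝 1) ∧ Tendsto (maxRatioS d) atTop (𝓝 1) := by
  refine ⟨?_, ?_, fun d hd => ⟨tendsto_maxRatioP hd, tendsto_maxRatioS hd⟩⟩
  · apply tendsto_const_nhds.congr'
    filter_upwards [eventually_ge_atTop 4] with d hd
    exact (tauP_eq_one hd).symm
  · apply tendsto_const_nhds.congr'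
    filter_upwards [eventually_ge_atTop 4] with d hd
    exact (tauS_eq_one hd).symm

end Pool.Agent.Results.MP_ff81d5_co.LimitOne
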