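import Mathlib
import Pool.Agent.TH373.RateLimits

set_option autoImplicit false

/-!
# MP_ff81d5_co, Q2: the sequences `τ^P_d` and `τ^S_d` are weakly increasing

The definitions of `tauP`, `tauS` and of all notions they use are in `Pool.Agent.H523R3.TransDefs`.
-/

namespace Pool.Agent.Results.MP_ff81d5_co.WeaklyIncreasing

open Pool.Agent.H523R3.Trans

/-- For every `d ≥ 2`: `τ^P_d ≤ τ^P_{d+1}` and `τ^S_d ≤ τ^S_{d+1}`. -/
theorem result : ∀ d : ℕ, 2 ≤ d → tauP d ≤ tauP (d + 1) ∧ tauS d ≤ tauS (d + 1) :=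
  Pool.Agent.TH373.Rate.monotone_tau

end Pool.Agent.Results.MP_ff81d5_co.WeaklyIncreasing
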